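import Pool.Agent.Run7.h104.Tri17

/-!
# MP_730047_an: Riesz measure of the lower envelope of δ-subharmonic functions

For δ-subharmonic functions `w_1, …, w_m` in a domain `Ω ⊆ ℝⁿ` (every `n ≥ 1`) the Riesz measure of
`min_j w_j` dominates the greatest lower bound of the Riesz measures of the pairwise minima.

The definitions used in the statement (file `Pool/Agent/Helper486/TP/PDefs.lean` and `Defs.lean`):
`E n` is Euclidean space `ℝⁿ`, `Subharmonic Ω u` is the classical definition for functions with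
values in `[-∞, ∞)`, `Polar`, `DeltaSubharmonic Ω w`, `SignedRadon Ω` (signed Radon measures on `Ω`,
as a difference of two positive Borel measures finite on the compact subsets of `Ω`), with the order
`μ ≤ ν` iff `μ(B) ≤ ν(B)` for all Borel sets `B` contained in a compact subset of `Ω`, and
`IsRiesz c Ω w μ`: `μ = c Δ w` on `Ω` in the sense of distributions.
-/

set_option autoImplicit false

open MeasureTheory Set Filter Topology Metric
open scoped ContDiff Laplacian ENNReal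

namespace Pool.Agent.Results.MP_730047_an.LowerEnvelope

open Pool.Agent.Helper486.TP Run7.h104.Tri

/-- **The inequality for the lower envelope of δ-subharmonic functions, in every dimension.**
The pairwise minima and the minimum have Riesz measures; for any choice of these Riesz measures
(they are unique as set functions on the Borel sets contained in compact subsets of `Ω`) the family
of the Riesz measures of the pairwise minima has a greatest lower bound `γ`, and `γ ≤ μ`; moreover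
every signed Radon measure `ν` below all of them is `≤ μ`. -/
theorem result (n : ℕ) (hn : 1 ≤ n) (Ω : Set (E n)) (hΩ : IsOpen Ω) (hΩc : IsConnected Ω)
    (c : ℝ) (hc : 0 < c) (m : ℕ) (hm : 2 ≤ m) (w : Fin m → E n → EReal)
    (hw : ∀ j, DeltaSubharmonic Ω (w j)) :
    (∀ j k, ∃ μ : SignedRadon Ω, IsRiesz c Ω (fun x => w j x ⊓ w k x) μ) ∧
    (∃ μ : SignedRadon Ω, IsRiesz c Ω (fun x => ⨅ j, w j x) μ) ∧
    ∀ (μ : SignedRadon Ω) (μp : Fin m → Fin m → SignedRadon Ω),
      IsRiesz c Ω (fun x => ⨅ j, w j x) μ →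
      (∀ j k, j < k → IsRiesz c Ω (fun x => w j x ⊓ w k x) (μp j k)) →
      (∃ γ : SignedRadon Ω, IsGLB {κ | ∃ j k, j < k ∧ κ = μp j k} γ ∧ γ ≤ μ) ∧
      ∀ ν : SignedRadon Ω, (∀ j k, j < k → ν ≤ μp j k) → ν ≤ μ := by
  have hn0 : 0 < n := hn
  have hpc := hΩc.isPreconnected
  have hdel : ∀ j, Del Ω (fun x => (w j x).toReal) := fun j => (delta_del hΩ hpc (hw j)).1
  have hgood : ∀ᵐ x, x ∈ Ω → ∀ j, w j x ≠ ⊤ ∧ w j x ≠ ⊥ := by
    have h1 : ∀ᵐ x, ∀ j, x ∈ Ω → w j x ≠ ⊤ ∧ w j x ≠ ⊥ :=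
      ae_all_iff.2 fun j => (delta_del hΩ hpc (hw j)).2
    filter_upwards [h1] with x hx hxΩ j using hx j hxΩ
  have huniv : ∀ x, (Finset.univ.inf (fun j => w j x)) = ⨅ j, w j x := fun x => by
    rw [Finset.inf_univ_eq_iInf]
  have hne : (Finset.univ : Finset (Fin m)).Nonempty := ⟨⟨0, by omega⟩, Finset.mem_univ _⟩
  have hpair : ∀ j k, Del Ω (fun x => (w j x ⊓ w k x).toReal) := by
    intro j k
    refine ((hdel j).inf hΩ (hdel k)).congr ?_
    filter_upwards [hgood] with x hx hxΩ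
    exact (toReal_inf (hx hxΩ j).1 (hx hxΩ j).2 (hx hxΩ k).1 (hx hxΩ k).2).symm
  have hall : Del Ω (fun x => (⨅ j, w j x).toReal) := by
    have := del_inf hΩ hdel hgood hne
    simpa only [huniv] using this
  have key : ∀ (μ : SignedRadon Ω) (μp : Fin m → Fin m → SignedRadon Ω),
      IsRiesz c Ω (fun x => ⨅ j, w j x) μ →
      (∀ j k, j < k → IsRiesz c Ω (fun x => w j x ⊓ w k x) (μp j k)) →
      ∀ ν : SignedRadon Ω, (∀ j k, j < k → ν ≤ μp j k) → ν ≤ μ := by
    intro μ μp hμ hμp ν hν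
    obtain ⟨μ', h1, h2⟩ := envelope hn0 hΩ hdel hgood hc
      (fun j k hjk => ⟨μp j k, (isRiesz_iff hc).1 (hμp j k hjk), hν j k hjk⟩) (m - 2) Finset.univ
      (by rw [Finset.card_univ, Fintype.card_fin]; omega)
    simp only [huniv] at h1
    exact h2.trans (riesz_unique hΩ ((isRiesz_iff hc).1 hμ) h1)
  refine ⟨fun j k => ?_, ?_, fun μ μp hμ hμp => ⟨?_, key μ μp hμ hμp⟩⟩
  · obtain ⟨μ, hμ⟩ := ((hpair j k).const_mul hc.le).riesz hn0 hΩ
    exact ⟨μ, (isRiesz_iff hc).2 hμ⟩
  · obtain ⟨μ, hμ⟩ := (hall.const_mul hc.le).riesz hn0 hΩ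
    exact ⟨μ, (isRiesz_iff hc).2 hμ⟩
  · have hne' : Nonempty {p : Fin m × Fin m // p.1 < p.2} :=
      ⟨⟨(⟨0, by omega⟩, ⟨1, by omega⟩), by simp [Fin.lt_def]⟩⟩
    obtain ⟨γ, hγ⟩ := exists_glb (fun p : {p : Fin m × Fin m // p.1 < p.2} => μp p.1.1 p.1.2)
    have hset : {κ | ∃ j k, j < k ∧ κ = μp j k} =
        range (fun p : {p : Fin m × Fin m // p.1 < p.2} => μp p.1.1 p.1.2) := by
      ext κ
      constructor
      · rintro ⟨j, k, hjk, rfl⟩
        exact ⟨⟨(j, k), hjk⟩, rfl⟩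
      · rintro ⟨p, rfl⟩
        exact ⟨p.1.1, p.1.2, p.2, rfl⟩
    rw [hset]
    refine ⟨γ, hγ, key μ μp hμ hμp γ fun j k hjk => ?_⟩
    exact hγ.1 ⟨⟨(j, k), hjk⟩, rfl⟩

end Pool.Agent.Results.MP_730047_an.LowerEnvelope
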